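import Pool.Agent.Helper52.Wqo.Ends

set_option autoImplicit false

open Pointwise

namespace Pool.Agent.Helper52.Wqo

variable {Γ : Type*} [Group Γ]

/-- A finite separator produces two elements with four distinct attracting components. -/
theorem full {S F : Set Γ} (hS : Gen S) (hinf : S.Infinite) (hF : F.Finite)
    {a b : Γ} (ha : a ∉ F) (hb : b ∉ F) (hab : b ∉ cmp S F a) :
    ∃ F' : Set Γ, F'.Finite ∧ Tied S F' ∧ ∃ A B C D : Set Γ, A ≠ B ∧ A ≠ C ∧ A ≠ D ∧ B ≠ C ∧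
      B ≠ D ∧ C ≠ D ∧ Ty S F' ⊤ A B ∧ Ty S F' ⊤ C D := by
  have hne : cmp S F a ≠ cmp S F b := by
    intro h
    apply hab
    rw [h]
    exact self_mem _ _ _
  obtain ⟨F', hF', hT, x, y, z, w, hx, hy, hz, hw, h1, h2, h3, h4, h5, h6⟩ :=
    four_tied hS hinf hF ha hb hne
  refine ⟨F', hF', hT, ?_⟩
  by_contra hcon
  obtain ⟨l, p, q, hp, hq, hpq, hpl, hql, hst⟩ := star (Ty S F' ⊤)
    {A | ∃ x, x ∉ F' ∧ cmp S F' x = A} (fun _ _ h => ty_symm h)
    (fun _ _ _ _ h h' hne => ty_prod hS hT h h' hne)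
    (by
      rintro A ⟨x, hx, rfl⟩
      obtain ⟨g, hg, hgx⟩ := far_in hS hinf hF' hx
      exact ⟨cmp S F' g⁻¹, g, trivial, hg, hgx, rfl⟩)
    (by
      intro A B C D hAB hCD e1 e2 e3 e4 e5 e6
      exact hcon ⟨A, B, C, D, e1, e3, e4, e5, e6, e2, hAB, hCD⟩)
    (cmp S F' x) (cmp S F' y) (cmp S F' z) (cmp S F' w) ⟨x, hx, rfl⟩ ⟨y, hy, rfl⟩ ⟨z, hz, rfl⟩
    ⟨w, hw, rfl⟩ h1 h2 h3 h4 h5 h6
  obtain ⟨g, _, hg, rfl, hgl⟩ := hp
  obtain ⟨h, _, hh, rfl, hhl⟩ := hq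
  refine no_star hS hF' hT hg hh hgl hhl hpl hql hpq ?_
  intro u hu
  exact hst _ _ ⟨u, trivial, hu, rfl, rfl⟩

theorem row {S F : Set Γ} (hS : Gen S) (hT : Tied S F) {N : Subgroup Γ} {A B C D : Set Γ}
    (h4 : B ≠ C) (h5 : B ≠ D)
    (hAB : Ty S F N A B) (hCD : Ty S F N C D) :
    Ty S F N A A ∧ Ty S F N A B ∧ Ty S F N A C ∧ Ty S F N A D := by
  have hAD := ty_prod hS hT hAB hCD h4
  have hAC := ty_prod hS hT hAB (ty_symm hCD) h5
  have hCA := ty_symm hAC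
  exact ⟨ty_prod hS hT hAB hCA h4, hAB, hAC, hAD⟩

theorem pick {α : Type*} {A B C : α} (h1 : A ≠ B) (h2 : A ≠ C) (h4 : B ≠ C) (I J : α)
    (P : α → Prop) (pA : P A) (pB : P B) (pC : P C) : ∃ L, P L ∧ L ≠ I ∧ L ≠ J := by
  by_cases a1 : A = I
  · by_cases b1 : B = J
    · refine ⟨C, pC, ?_, ?_⟩
      · rw [← a1]; exact Ne.symm h2
      · rw [← b1]; exact Ne.symm h4
    · exact ⟨B, pB, by rw [← a1]; exact Ne.symm h1, b1⟩
  · by_cases a2 : A = J
    · by_cases b1 : B = I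
      · refine ⟨C, pC, ?_, ?_⟩
        · rw [← b1]; exact Ne.symm h4
        · rw [← a2]; exact Ne.symm h2
      · exact ⟨B, pB, b1, by rw [← a2]; exact Ne.symm h1⟩
    · exact ⟨A, pA, a1, a2⟩

theorem conj_type {S F : Set Γ} (hS : Gen S) (hT : Tied S F) {g n : Γ} (hg : Far F g)
    (hn : Far F n) (h1 : cmp S F g⁻¹ ≠ cmp S F n) (h2 : cmp S F n⁻¹ ≠ cmp S F g⁻¹) :
    Far F (g * n * g⁻¹) ∧ cmp S F (g * n * g⁻¹) = cmp S F g := by
  obtain ⟨e1, e2⟩ := far_mul hS hT hg hn h1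
  obtain ⟨_, e4⟩ := far_mul hS hT (far_inv hn) (far_inv hg) (by rw [inv_inv]; exact Ne.symm h1)
  rw [← mul_inv_rev] at e4
  obtain ⟨e5, e6⟩ := far_mul hS hT e1 (far_inv hg) (by rw [e4]; exact h2)
  exact ⟨e5, e6.trans e2⟩

theorem normal_type {S F : Set Γ} (hS : Gen S) (hF : F.Finite) (hT : Tied S F)
    {A B C D : Set Γ} (h1 : A ≠ B) (h2 : A ≠ C) (h3 : A ≠ D) (h4 : B ≠ C)
    (h5 : B ≠ D) (hAB : Ty S F ⊤ A B) (hCD : Ty S F ⊤ C D)
    (N : Subgroup Γ) (hN : N.Normal) (hNinf : (N : Set Γ).Infinite) : Ty S F N A A := by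
  obtain ⟨n, hnN, hn'⟩ := (hNinf.sdiff (not_far_finite hF)).nonempty
  have hn : Far F n := not_not.1 hn'
  obtain ⟨rA, rB, rC, _⟩ := row hS hT h4 h5 hAB hCD
  obtain ⟨L, hL, hLI, hLJ⟩ := pick h1 h2 h4 (cmp S F n) (cmp S F n⁻¹)
    (fun L => Ty S F ⊤ A L) rA rB rC
  obtain ⟨g, _, hg, hgA, hgL⟩ := hL
  obtain ⟨e1, e2⟩ := conj_type hS hT hg hn (by rw [hgL]; exact hLI)
    (by rw [hgL]; exact Ne.symm hLJ)
  obtain ⟨_, e4⟩ := conj_type hS hT hg (far_inv hn) (by rw [hgL]; exact hLJ)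
    (by rw [hgL, inv_inv]; exact Ne.symm hLI)
  refine ⟨g * n * g⁻¹, hN.conj_mem n hnN g, e1, e2.trans hgA, ?_⟩
  have : (g * n * g⁻¹)⁻¹ = g * n⁻¹ * g⁻¹ := by group
  rw [this, e4, hgA]

/-- An infinite normal subgroup without non-abelian free subgroups, or with infinite
centralizer, prevents finite separators. -/
theorem conn_normal {S F : Set Γ} (hS : Gen S) (hinf : S.Infinite) (hF : F.Finite)
    {a b : Γ} (ha : a ∉ F) (hb : b ∉ F) (N : Subgroup Γ) (hN : N.Normal)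
    (hNinf : (N : Set Γ).Infinite)
    (hyp : (∀ g ∈ N, ∀ h ∈ N, ¬ Function.Injective (FreeGroup.lift (![g, h] : Fin 2 → Γ))) ∨
      (Subgroup.centralizer (N : Set Γ) : Set Γ).Infinite) : b ∈ cmp S F a := by
  by_contra hab
  obtain ⟨F', hF', hT, A, B, C, D, h1, h2, h3, h4, h5, h6, hAB, hCD⟩ := full hS hinf hF ha hb hab
  have tA : ∀ N : Subgroup Γ, N.Normal → (N : Set Γ).Infinite → Ty S F' N A A :=
    normal_type hS hF' hT h1 h2 h3 h4 h5 hAB hCD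
  have tB : ∀ N : Subgroup Γ, N.Normal → (N : Set Γ).Infinite → Ty S F' N B B :=
    normal_type hS hF' hT (Ne.symm h1) h4 h5 h2 h3 (ty_symm hAB) hCD
  have tC : ∀ N : Subgroup Γ, N.Normal → (N : Set Γ).Infinite → Ty S F' N C C :=
    normal_type hS hF' hT h6 (Ne.symm h2) (Ne.symm h4) (Ne.symm h3) (Ne.symm h5) hCD hAB
  have tD : ∀ N : Subgroup Γ, N.Normal → (N : Set Γ).Infinite → Ty S F' N D D :=
    normal_type hS hF' hT (Ne.symm h6) (Ne.symm h3) (Ne.symm h5) (Ne.symm h2) (Ne.symm h4)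
      (ty_symm hCD) hAB
  rcases hyp with hfree | hcent
  · have kAB := ty_prod hS hT (tA N hN hNinf) (tB N hN hNinf) h1
    have kCD := ty_prod hS hT (tC N hN hNinf) (tD N hN hNinf) h6
    obtain ⟨g, hgN, hg, rfl, rfl⟩ := kAB
    obtain ⟨h, hhN, hh, rfl, rfl⟩ := kCD
    exact hfree g hgN h hhN (pingpong hS hT hg hh h1 h6 h2 h3 h4 h5)
  · have hCn : (Subgroup.centralizer (N : Set Γ)).Normal := inferInstance
    obtain ⟨g, hgN, hg, hgA, hgA'⟩ := tA N hN hNinf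
    obtain ⟨h, hhN, hh, hhB, hhB'⟩ := tB _ hCn hcent
    obtain ⟨_, e2⟩ := far_mul hS hT hg hh (by rw [hgA', hhB]; exact h1)
    obtain ⟨_, e4⟩ := far_mul hS hT hh hg (by rw [hhB', hgA]; exact Ne.symm h1)
    have hcomm : g * h = h * g := Subgroup.mem_centralizer_iff.1 hhN g hgN
    rw [hcomm, e4, hhB, hgA] at e2
    exact h1 e2.symm

/-- Conjugation invariant generating sets. -/
theorem conn_conj {S F : Set Γ} (hS : Gen S) (hinf : S.Infinite) (hF : F.Finite)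
    (hconj : ∀ g, ∀ s ∈ S, g * s * g⁻¹ ∈ S)
    {a b : Γ} (ha : a ∉ F) (hb : b ∉ F) : b ∈ cmp S F a := by
  obtain ⟨Q, hQ, hT, hQb⟩ := exists_tied hS (a⁻¹ * b)
  have hfin : (F * (a • Q)⁻¹).Finite := hF.mul hQ.smul_set.inv
  obtain ⟨s, hsS, hs⟩ := (hinf.sdiff hfin).nonempty
  have havoid : ∀ y ∈ Q, s * a * y ∉ F := by
    intro y hy h
    apply hs
    refine Set.mem_mul.2 ⟨s * a * y, h, (a * y)⁻¹, ?_, by group⟩
    exact Set.inv_mem_inv.2 (Set.mem_smul_set.2 ⟨y, hy, rfl⟩)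
  have h1 : s * a * (a⁻¹ * b) ∈ cmp S F (s * a) := tied_mem hT havoid _ hQb
  have e : s * a * (a⁻¹ * b) = s * b := by group
  rw [e] at h1
  have h0 : s * a ∈ cmp S F a := by
    refine cmp_adj (self_mem _ _ _) ?_ ?_
    · have := hconj a⁻¹ s hsS
      simpa [mul_assoc] using this
    · have := havoid 1 hT.1
      simpa using this
  refine cmp_trans (cmp_trans h0 h1) (cmp_adj (self_mem _ _ _) ?_ hb)
  have := hconj b⁻¹ s⁻¹ (hS.symm s hsS)
  simpa [mul_assoc] using this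

/-- Groups in which every almost invariant set is finite or cofinite. -/
theorem conn_ends {S F : Set Γ} (hS : Gen S) (hinf : S.Infinite) (hF : F.Finite)
    (hends : ∀ U : Set Γ, (∀ g : Γ, {x | x ∈ U ∧ x * g ∉ U}.Finite) → U.Finite ∨ Uᶜ.Finite)
    {a b : Γ} (ha : a ∉ F) (hb : b ∉ F) : b ∈ cmp S F a := by
  by_contra hab
  have hai : ∀ g : Γ, {x | x ∈ cmp S F a ∧ x * g ∉ cmp S F a}.Finite := by
    refine gen_induct hS _ ?_ ?_
    · convert Set.finite_empty (α := Γ)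
      ext x
      simp
    · intro g h ih hgh
      have hset : {x | x ∈ cmp S F a ∧ x * h ∉ cmp S F a} ⊆
          {x | x ∈ cmp S F a ∧ x * g ∉ cmp S F a} ∪ ((fun x => x * h⁻¹) '' F) := by
        rintro x ⟨hx, hxh⟩
        by_cases hxg : x * g ∈ cmp S F a
        · right
          refine ⟨x * h, ?_, by simp⟩
          by_contra hF'
          refine hxh (cmp_adj hxg ?_ hF')
          simpa [mul_assoc] using hgh
        · exact Or.inl ⟨hx, hxg⟩
      exact (ih.union (hF.image _)).subset hset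
  rcases hends _ hai with h | h
  · exact cmp_infinite hinf hF a h
  · refine cmp_infinite hinf hF b (h.subset ?_)
    intro x hx hxa
    exact hab (by
      have := cmp_eq_of_common hS ha hb hxa hx
      rw [this]
      exact self_mem _ _ _)

end Pool.Agent.Helper52.Wqo
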