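import Pool.Agent.Helper52.Wqo.Cmp

set_option autoImplicit false

namespace Pool.Agent.Helper52.Wqo

variable {Γ : Type*} [Group Γ]

/-- Any two points of `A` are joined inside `A`. -/
def PreC (S A : Set Γ) : Prop :=
  ∀ a ∈ A, ∀ b ∈ A, Relation.ReflTransGen (fun x y => x⁻¹ * y ∈ S ∧ y ∈ A) a b

theorem rtg_mono {S A B : Set Γ} (h : A ⊆ B) {a b : Γ}
    (hab : Relation.ReflTransGen (fun x y => x⁻¹ * y ∈ S ∧ y ∈ A) a b) :
    Relation.ReflTransGen (fun x y => x⁻¹ * y ∈ S ∧ y ∈ B) a b :=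
  Relation.ReflTransGen.mono (fun _ _ h1 => ⟨h1.1, h h1.2⟩) _ _ hab

theorem preC_union {S A B : Set Γ} (hS : Gen S) (hA : PreC S A) (hB : PreC S B) {u v : Γ}
    (hu : u ∈ A) (hv : v ∈ B) (huv : u⁻¹ * v ∈ S) : PreC S (A ∪ B) := by
  have e1 : Relation.ReflTransGen (fun x y => x⁻¹ * y ∈ S ∧ y ∈ A ∪ B) u v :=
    Relation.ReflTransGen.single ⟨huv, Or.inr hv⟩
  have e2 : Relation.ReflTransGen (fun x y => x⁻¹ * y ∈ S ∧ y ∈ A ∪ B) v u :=
    Relation.ReflTransGen.single ⟨adj_symm hS huv, Or.inl hu⟩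
  rintro a (ha | ha) b (hb | hb)
  · exact rtg_mono Set.subset_union_left (hA a ha b hb)
  · exact ((rtg_mono Set.subset_union_left (hA a ha u hu)).trans e1).trans
      (rtg_mono Set.subset_union_right (hB v hv b hb))
  · exact ((rtg_mono Set.subset_union_right (hB a ha v hv)).trans e2).trans
      (rtg_mono Set.subset_union_left (hA u hu b hb))
  · exact rtg_mono Set.subset_union_right (hB a ha b hb)

theorem preC_singleton (S : Set Γ) (a : Γ) : PreC S {a} := by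
  rintro x rfl y rfl
  exact Relation.ReflTransGen.refl

theorem preC_empty (S : Set Γ) : PreC S (∅ : Set Γ) := by
  intro a ha
  exact absurd ha (Set.notMem_empty a)

theorem exists_path {S F : Set Γ} (hS : Gen S) {a b : Γ} (ha : a ∉ F) (hb : b ∈ cmp S F a) :
    ∃ P : Set Γ, P.Finite ∧ PreC S P ∧ a ∈ P ∧ b ∈ P ∧ ∀ x ∈ P, x ∉ F := by
  have h : Relation.ReflTransGen (fun a b => a⁻¹ * b ∈ S ∧ b ∉ F) a b := hb
  induction h with
  | refl => exact ⟨{a}, Set.finite_singleton _, preC_singleton S a, rfl, rfl, by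
      rintro x rfl; exact ha⟩
  | tail hab hbc ih =>
    rename_i b c
    obtain ⟨P, h1, h2, h3, h4, h5⟩ := ih hab
    refine ⟨P ∪ {c}, h1.union (Set.finite_singleton _), preC_union hS h2 (preC_singleton S c)
      h4 rfl hbc.1, Or.inl h3, Or.inr rfl, ?_⟩
    rintro x (hx | rfl)
    · exact h5 x hx
    · exact hbc.2

/-- Finite stages of the construction of a complete minor. -/
structure Ok (S : Set Γ) (β : ℕ → Set Γ) : Prop where
  fin : ∀ i, (β i).Finite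
  disj : ∀ i j x, x ∈ β i → x ∈ β j → i = j
  pre : ∀ i, PreC S (β i)
  supp : ∃ N, ∀ i, N ≤ i → β i = ∅

theorem Ok.union_fin {S : Set Γ} {β : ℕ → Set Γ} (h : Ok S β) : (⋃ i, β i).Finite := by
  obtain ⟨N, hN⟩ := h.supp
  refine (Set.Finite.biUnion (Set.finite_Iio N) (fun i _ => h.fin i)).subset ?_
  intro x hx
  obtain ⟨i, hi⟩ := Set.mem_iUnion.1 hx
  refine Set.mem_biUnion (x := i) ?_ hi
  by_contra hcon
  rw [hN i (by simpa using hcon)] at hi
  exact hi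

theorem Ok.update {S : Set Γ} {β : ℕ → Set Γ} (h : Ok S β) (i : ℕ) (P : Set Γ)
    (hP : P.Finite) (hd : ∀ x ∈ P, x ∉ ⋃ k, β k) (hpre : PreC S (β i ∪ P)) :
    Ok S (Function.update β i (β i ∪ P)) := by
  have key : ∀ k x, x ∈ Function.update β i (β i ∪ P) k → (x ∈ β k ∨ (k = i ∧ x ∈ P)) := by
    intro k x hx
    by_cases hk : k = i
    · subst hk
      rw [Function.update_self] at hx
      rcases hx with hx | hx
      · exact Or.inl hx
      · exact Or.inr ⟨rfl, hx⟩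
    · rw [Function.update_of_ne hk] at hx
      exact Or.inl hx
  refine ⟨?_, ?_, ?_, ?_⟩
  · intro k
    by_cases hk : k = i
    · subst hk
      rw [Function.update_self]
      exact (h.fin k).union hP
    · rw [Function.update_of_ne hk]
      exact h.fin k
  · intro k l x hx hx'
    rcases key k x hx with h1 | ⟨h1, h1'⟩ <;> rcases key l x hx' with h2 | ⟨h2, h2'⟩
    · exact h.disj k l x h1 h2
    · exact absurd (Set.mem_iUnion.2 ⟨k, h1⟩) (hd x h2')
    · exact absurd (Set.mem_iUnion.2 ⟨l, h2⟩) (hd x h1')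
    · rw [h1, h2]
  · intro k
    by_cases hk : k = i
    · subst hk
      rw [Function.update_self]
      exact hpre
    · rw [Function.update_of_ne hk]
      exact h.pre k
  · obtain ⟨N, hN⟩ := h.supp
    refine ⟨max N (i + 1), ?_⟩
    intro k hk
    have hki : k ≠ i := by
      have := le_of_max_le_right hk
      omega
    rw [Function.update_of_ne hki]
    exact hN k (le_of_max_le_left hk)

theorem update_le {β : ℕ → Set Γ} (i : ℕ) (P : Set Γ) (k : ℕ) :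
    β k ⊆ Function.update β i (β i ∪ P) k := by
  by_cases hk : k = i
  · subst hk
    rw [Function.update_self]
    exact Set.subset_union_left
  · rw [Function.update_of_ne hk]

theorem Ok.nonempty {S : Set Γ} {β : ℕ → Set Γ} (hinf : S.Infinite) (h : Ok S β) (i : ℕ) :
    ∃ β', Ok S β' ∧ (∀ k, β k ⊆ β' k) ∧ (β' i).Nonempty := by
  by_cases hi : (β i).Nonempty
  · exact ⟨β, h, fun k => le_refl _, hi⟩
  · have he : β i = ∅ := Set.not_nonempty_iff_eq_empty.1 hi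
    obtain ⟨v, _, hv⟩ := (hinf.sdiff h.union_fin).nonempty
    refine ⟨Function.update β i (β i ∪ {v}), h.update i {v} (Set.finite_singleton _) ?_ ?_,
      update_le i {v}, ⟨v, ?_⟩⟩
    · rintro x rfl
      exact hv
    · rw [he, Set.empty_union]
      exact preC_singleton S v
    · rw [Function.update_self]
      exact Or.inr rfl

theorem nbr {S F : Set Γ} (hinf : S.Infinite) (hF : F.Finite) (x : Γ) :
    ∃ y, x⁻¹ * y ∈ S ∧ y ∉ F := by
  have h1 : ((fun s => x * s) '' S).Infinite := hinf.image (fun a _ b _ h => by simpa using h)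
  obtain ⟨y, ⟨s, hs, rfl⟩, hy⟩ := (h1.sdiff hF).nonempty
  exact ⟨x * s, by simpa using hs, hy⟩

theorem Ok.step {S : Set Γ} {β : ℕ → Set Γ} (hS : Gen S) (hinf : S.Infinite)
    (hconn : ∀ F : Set Γ, F.Finite → ∀ a b, a ∉ F → b ∉ F → b ∈ cmp S F a)
    (h : Ok S β) (i j : ℕ) (hij : i ≠ j) :
    ∃ β', Ok S β' ∧ (∀ k, β k ⊆ β' k) ∧ ∃ a ∈ β' i, ∃ b ∈ β' j, a⁻¹ * b ∈ S := by
  obtain ⟨β₁, h₁, hle₁, ⟨u₀, hu₀⟩⟩ := h.nonempty hinf i
  obtain ⟨β₂, h₂, hle₂, ⟨w, hw⟩⟩ := h₁.nonempty hinf j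
  have hu : u₀ ∈ β₂ i := hle₂ i hu₀
  obtain ⟨a, hua, ha⟩ := nbr hinf h₂.union_fin u₀
  obtain ⟨b, hwb, hb⟩ := nbr hinf h₂.union_fin w
  obtain ⟨P, hP, hPC, haP, hbP, hPF⟩ := exists_path hS ha (hconn _ h₂.union_fin a b ha hb)
  refine ⟨Function.update β₂ i (β₂ i ∪ P), h₂.update i P hP hPF
    (preC_union hS (h₂.pre i) hPC hu haP hua), ?_, b, ?_, w, ?_, adj_symm hS hwb⟩
  · intro k
    exact ((hle₁ k).trans (hle₂ k)).trans (update_le i P k)
  · rw [Function.update_self]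
    exact Or.inr hbP
  · rw [Function.update_of_ne (Ne.symm hij)]
    exact hw

/-- Infinite connectivity gives a complete minor on `ℕ`. -/
theorem complete_minor {S : Set Γ} (hS : Gen S) (hinf : S.Infinite)
    (hconn : ∀ F : Set Γ, F.Finite → ∀ a b, a ∉ F → b ∉ F → b ∈ cmp S F a) :
    ∃ B : ℕ → Set Γ, (∀ i, (B i).Nonempty) ∧ (∀ i, PreC S (B i)) ∧
      (∀ i j x, x ∈ B i → x ∈ B j → i = j) ∧
      (∀ i j, i ≠ j → ∃ a ∈ B i, ∃ b ∈ B j, a⁻¹ * b ∈ S) := by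
  classical
  have step : ∀ (β : {β : ℕ → Set Γ // Ok S β}) (p : ℕ × ℕ), ∃ β' : {β : ℕ → Set Γ // Ok S β},
      (∀ k, β.1 k ⊆ β'.1 k) ∧ (p.1 ≠ p.2 → ∃ a ∈ β'.1 p.1, ∃ b ∈ β'.1 p.2, a⁻¹ * b ∈ S) := by
    rintro ⟨β, hβ⟩ ⟨i, j⟩
    by_cases hij : i = j
    · exact ⟨⟨β, hβ⟩, fun k => le_refl _, fun h => absurd hij h⟩
    · obtain ⟨β', h1, h2, h3⟩ := hβ.step hS hinf hconn i j hij
      exact ⟨⟨β', h1⟩, h2, fun _ => h3⟩
  choose nxt hnxt1 hnxt2 using step
  have h0 : Ok S (fun _ => (∅ : Set Γ)) :=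
    ⟨fun _ => Set.finite_empty, fun _ _ x hx => absurd hx (Set.notMem_empty x),
      fun _ => preC_empty S, ⟨0, fun _ _ => rfl⟩⟩
  let seq : ℕ → {β : ℕ → Set Γ // Ok S β} := fun n =>
    Nat.rec ⟨fun _ => (∅ : Set Γ), h0⟩ (fun n β => nxt β (Nat.unpair n)) n
  have hseq : ∀ n, seq (n + 1) = nxt (seq n) (Nat.unpair n) := fun n => rfl
  have hmono1 : ∀ n k, (seq n).1 k ⊆ (seq (n + 1)).1 k := by
    intro n k
    rw [hseq]
    exact hnxt1 _ _ k
  have hmono : ∀ m n, m ≤ n → ∀ k, (seq m).1 k ⊆ (seq n).1 k := by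
    intro m n hmn k
    induction hmn with
    | refl => exact le_refl _
    | step _ ih => exact ih.trans (hmono1 _ k)
  have hadj : ∀ i j, i ≠ j → ∃ n, ∃ a ∈ (seq n).1 i, ∃ b ∈ (seq n).1 j, a⁻¹ * b ∈ S := by
    intro i j hij
    refine ⟨Nat.pair i j + 1, ?_⟩
    rw [hseq, Nat.unpair_pair]
    exact hnxt2 _ (i, j) hij
  refine ⟨fun i => ⋃ n, (seq n).1 i, ?_, ?_, ?_, ?_⟩
  · intro i
    obtain ⟨n, a, ha, _⟩ := hadj i (i + 1) (by omega)
    exact ⟨a, Set.mem_iUnion.2 ⟨n, ha⟩⟩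
  · intro i a ha b hb
    obtain ⟨m, hm⟩ := Set.mem_iUnion.1 ha
    obtain ⟨n, hn⟩ := Set.mem_iUnion.1 hb
    have h1 := hmono m (max m n) (le_max_left _ _) i hm
    have h2 := hmono n (max m n) (le_max_right _ _) i hn
    exact rtg_mono (Set.subset_iUnion (fun n => (seq n).1 i) (max m n))
      ((seq (max m n)).2.pre i a h1 b h2)
  · intro i j x hx hx'
    obtain ⟨m, hm⟩ := Set.mem_iUnion.1 hx
    obtain ⟨n, hn⟩ := Set.mem_iUnion.1 hx'
    exact (seq (max m n)).2.disj i j x (hmono m (max m n) (le_max_left _ _) i hm)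
      (hmono n (max m n) (le_max_right _ _) j hn)
  · intro i j hij
    obtain ⟨n, a, ha, b, hb, hab⟩ := hadj i j hij
    exact ⟨a, Set.mem_iUnion.2 ⟨n, ha⟩, b, Set.mem_iUnion.2 ⟨n, hb⟩, hab⟩

end Pool.Agent.Helper52.Wqo
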