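import Mathlib

set_option autoImplicit false

open Pointwise

namespace Pool.Agent.Helper52.Wqo

variable {Γ : Type*} [Group Γ]

/-- Symmetric generating set. -/
structure Gen (S : Set Γ) : Prop where
  top : Subgroup.closure S = ⊤
  symm : ∀ s ∈ S, s⁻¹ ∈ S

/-- Vertices reachable from `x` in the Cayley graph of `S`, all vertices after `x` outside `F`. -/
def cmp (S F : Set Γ) (x : Γ) : Set Γ :=
  {y | Relation.ReflTransGen (fun a b => a⁻¹ * b ∈ S ∧ b ∉ F) x y}

theorem adj_symm {S : Set Γ} (hS : Gen S) {a b : Γ} (h : a⁻¹ * b ∈ S) : b⁻¹ * a ∈ S := by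
  have := hS.symm _ h
  simpa using this

theorem gen_induct {S : Set Γ} (hS : Gen S) (P : Γ → Prop) (h1 : P 1)
    (hs : ∀ a b, P a → a⁻¹ * b ∈ S → P b) : ∀ x, P x := by
  intro x
  have hx : x ∈ Subgroup.closure S := by rw [hS.top]; trivial
  refine Subgroup.closure_induction_right (p := fun y _ => P y) h1 ?_ ?_ hx
  · intro y _ s hs' hy
    exact hs y _ hy (by simpa using hs')
  · intro y _ s hs' hy
    exact hs y _ hy (by simpa using hS.symm s hs')

theorem self_mem (S F : Set Γ) (x : Γ) : x ∈ cmp S F x := Relation.ReflTransGen.refl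

theorem cmp_not_mem {S F : Set Γ} {x y : Γ} (hx : x ∉ F) (hy : y ∈ cmp S F x) : y ∉ F := by
  have h : Relation.ReflTransGen (fun a b => a⁻¹ * b ∈ S ∧ b ∉ F) x y := hy
  cases h with
  | refl => exact hx
  | tail _ h => exact h.2

theorem cmp_trans {S F : Set Γ} {x y z : Γ} (h : y ∈ cmp S F x) (h' : z ∈ cmp S F y) :
    z ∈ cmp S F x := Relation.ReflTransGen.trans h h'

theorem cmp_adj {S F : Set Γ} {x y z : Γ} (h : y ∈ cmp S F x) (hyz : y⁻¹ * z ∈ S) (hz : z ∉ F) :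
    z ∈ cmp S F x := Relation.ReflTransGen.tail h ⟨hyz, hz⟩

theorem cmp_symm {S F : Set Γ} (hS : Gen S) {x y : Γ} (hx : x ∉ F) (h : y ∈ cmp S F x) :
    x ∈ cmp S F y := by
  have h' : Relation.ReflTransGen (fun a b => a⁻¹ * b ∈ S ∧ b ∉ F) x y := h
  induction h' with
  | refl => exact self_mem _ _ _
  | tail hab hbc ih =>
    rename_i b c
    have hb : b ∉ F := cmp_not_mem hx hab
    have h1 : b ∈ cmp S F c := cmp_adj (self_mem _ _ _) (adj_symm hS hbc.1) hb
    exact cmp_trans h1 (ih hab)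

theorem cmp_eq {S F : Set Γ} (hS : Gen S) {x y : Γ} (hx : x ∉ F) (h : y ∈ cmp S F x) :
    cmp S F y = cmp S F x := by
  ext z
  exact ⟨fun hz => cmp_trans h hz, fun hz => cmp_trans (cmp_symm hS hx h) hz⟩

theorem cmp_eq_of_common {S F : Set Γ} (hS : Gen S) {x y z : Γ} (hx : x ∉ F) (hy : y ∉ F)
    (h : z ∈ cmp S F x) (h' : z ∈ cmp S F y) : cmp S F x = cmp S F y :=
  (cmp_eq hS hx h).symm.trans (cmp_eq hS hy h')

theorem cmp_disj {S F : Set Γ} (hS : Gen S) {x y : Γ} (hx : x ∉ F) (hy : y ∉ F)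
    (hne : cmp S F x ≠ cmp S F y) : Disjoint (cmp S F x) (cmp S F y) := by
  rw [Set.disjoint_left]
  intro z hz hz'
  exact hne (cmp_eq_of_common hS hx hy hz hz')

theorem cmp_smul {S F : Set Γ} {x y : Γ} (g : Γ) (h : y ∈ cmp S F x) :
    g * y ∈ cmp S (g • F) (g * x) := by
  have h' : Relation.ReflTransGen (fun a b => a⁻¹ * b ∈ S ∧ b ∉ F) x y := h
  show Relation.ReflTransGen _ (g * x) (g * y)
  refine Relation.ReflTransGen.lift (fun z => g * z) ?_ _ _ h'
  rintro a b ⟨hab, hb⟩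
  refine ⟨by simpa [mul_assoc] using hab, ?_⟩
  intro hgb
  rw [Set.mem_smul_set] at hgb
  obtain ⟨c, hc, hgc⟩ := hgb
  have : c = b := by simpa using hgc
  exact hb (this ▸ hc)

theorem cmp_smul_iff {S F : Set Γ} {x y : Γ} (g : Γ) :
    y ∈ cmp S (g • F) (g * x) ↔ g⁻¹ * y ∈ cmp S F x := by
  constructor
  · intro h
    have := cmp_smul g⁻¹ h
    rw [inv_smul_smul, inv_mul_cancel_left] at this
    exact this
  · intro h
    have := cmp_smul g h
    rwa [mul_inv_cancel_left] at this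

theorem cmp_mono {S F F' : Set Γ} (h : F ⊆ F') (x : Γ) : cmp S F' x ⊆ cmp S F x := by
  intro y hy
  exact Relation.ReflTransGen.mono (fun a b hab => ⟨hab.1, fun hb => hab.2 (h hb)⟩) _ _ hy

theorem cmp_infinite {S F : Set Γ} (hinf : S.Infinite) (hF : F.Finite) (x : Γ) :
    (cmp S F x).Infinite := by
  have h1 : ((fun s => x * s) '' S).Infinite := hinf.image (fun a _ b _ h => by simpa using h)
  have h2 : (((fun s => x * s) '' S) \ F).Infinite := h1.sdiff hF
  refine h2.mono ?_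
  rintro _ ⟨⟨s, hs, rfl⟩, hF'⟩
  exact cmp_adj (self_mem _ _ _) (by simpa using hs) hF'

/-- `F` contains `1` and is connected in the Cayley graph. -/
def Tied (S F : Set Γ) : Prop :=
  (1 : Γ) ∈ F ∧ ∀ x ∈ F, Relation.ReflTransGen (fun a b => a⁻¹ * b ∈ S ∧ b ∈ F) 1 x

theorem tied_mem {S F F' : Set Γ} (hT : Tied S F) {g : Γ} (hd : ∀ x ∈ F, g * x ∉ F') :
    ∀ x ∈ F, g * x ∈ cmp S F' g := by
  intro x hx
  have h := hT.2 x hx
  have h2 : Relation.ReflTransGen (fun a b => a⁻¹ * b ∈ S ∧ b ∉ F') (g * 1) (g * x) := by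
    refine Relation.ReflTransGen.lift (fun z => g * z) ?_ _ _ h
    rintro a b ⟨hab, hb⟩
    exact ⟨by simpa [mul_assoc] using hab, hd b hb⟩
  rwa [mul_one] at h2

theorem tied_union {S F F' : Set Γ} (h : Tied S F) (h' : Tied S F') : Tied S (F ∪ F') := by
  refine ⟨Or.inl h.1, ?_⟩
  rintro x (hx | hx)
  · exact Relation.ReflTransGen.mono (fun a b hab => ⟨hab.1, Or.inl hab.2⟩) _ _ (h.2 x hx)
  · exact Relation.ReflTransGen.mono (fun a b hab => ⟨hab.1, Or.inr hab.2⟩) _ _ (h'.2 x hx)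

theorem exists_tied {S : Set Γ} (hS : Gen S) (x : Γ) :
    ∃ F : Set Γ, F.Finite ∧ Tied S F ∧ x ∈ F := by
  refine gen_induct hS (fun x => ∃ F : Set Γ, F.Finite ∧ Tied S F ∧ x ∈ F) ?_ ?_ x
  · refine ⟨{1}, Set.finite_singleton _, ⟨rfl, ?_⟩, rfl⟩
    rintro x rfl
    exact Relation.ReflTransGen.refl
  · rintro a b ⟨F, hF, hT, ha⟩ hab
    refine ⟨insert b F, hF.insert b, ⟨Or.inr hT.1, ?_⟩, Or.inl rfl⟩
    have key : ∀ y ∈ F, Relation.ReflTransGen (fun a' b' => a'⁻¹ * b' ∈ S ∧ b' ∈ insert b F) 1 y :=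
      fun y hy => Relation.ReflTransGen.mono (fun a' b' h => ⟨h.1, Or.inr h.2⟩) _ _ (hT.2 y hy)
    rintro y (rfl | hy)
    · exact Relation.ReflTransGen.tail (key a ha) ⟨hab, Or.inl rfl⟩
    · exact key y hy

theorem exists_tied_superset {S : Set Γ} (hS : Gen S) {F₀ : Set Γ} (hF : F₀.Finite) :
    ∃ F : Set Γ, F.Finite ∧ Tied S F ∧ F₀ ⊆ F := by
  induction F₀, hF using Set.Finite.induction_on with
  | empty =>
    obtain ⟨F, h1, h2, _⟩ := exists_tied hS (1 : Γ)
    exact ⟨F, h1, h2, Set.empty_subset _⟩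
  | insert _ _ ih =>
    rename_i a s _ _
    obtain ⟨F, h1, h2, h3⟩ := ih
    obtain ⟨F', h1', h2', h3'⟩ := exists_tied hS a
    refine ⟨F ∪ F', h1.union h1', tied_union h2 h2', ?_⟩
    rintro y (rfl | hy)
    · exact Or.inr h3'
    · exact Or.inl (h3 hy)

/-- `g F` is disjoint from `F`. -/
def Far (F : Set Γ) (g : Γ) : Prop := ∀ x ∈ F, g * x ∉ F

theorem far_inv {F : Set Γ} {g : Γ} (h : Far F g) : Far F g⁻¹ := by
  intro x hx hx'
  exact h _ hx' (by simpa using hx)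

theorem not_far_finite {F : Set Γ} (hF : F.Finite) : {g : Γ | ¬ Far F g}.Finite := by
  refine (hF.mul hF.inv).subset ?_
  intro g hg
  simp only [Far, not_forall, Set.mem_ofPred_eq, not_not] at hg
  obtain ⟨x, hx, hgx⟩ := hg
  refine Set.mem_mul.2 ⟨g * x, hgx, x⁻¹, Set.inv_mem_inv.2 hx, by simp⟩

theorem far_not_mem {S F : Set Γ} (hT : Tied S F) {g : Γ} (hg : Far F g) : g ∉ F := by
  have := hg 1 hT.1
  simpa using this

theorem rule {S F : Set Γ} (hS : Gen S) (hT : Tied S F) {g : Γ} (hg : Far F g) :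
    ∀ x, x ∉ cmp S F g⁻¹ → g * x ∈ cmp S F g := by
  refine gen_induct hS _ ?_ ?_
  · intro _
    rw [mul_one]
    exact self_mem _ _ _
  · intro a b ih hab hb
    have hinv : ∀ x ∈ F, g⁻¹ * x ∈ cmp S F g⁻¹ := tied_mem hT (far_inv hg)
    by_cases ha : a ∈ cmp S F g⁻¹
    · have hbF : b ∈ F := by
        by_contra hbF
        exact hb (cmp_adj ha hab hbF)
      exact tied_mem hT hg b hbF
    · refine cmp_adj (ih ha) (by simpa [mul_assoc] using hab) ?_
      intro hgb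
      have := hinv _ hgb
      rw [inv_mul_cancel_left] at this
      exact hb this

/-- The complement of the component of `g` lies in the component of `1` off `g F`. -/
theorem compl_subset {S F : Set Γ} (hS : Gen S) (hT : Tied S F) {g : Γ} (hg : Far F g) :
    ∀ x, x ∉ cmp S F g → x ∈ cmp S (g • F) 1 := by
  intro x hx
  have h := rule hS hT (far_inv hg) x (by rwa [inv_inv])
  have h2 := cmp_smul g h
  rwa [mul_inv_cancel_left, mul_inv_cancel] at h2

end Pool.Agent.Helper52.Wqo
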