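import Pool.Agent.Helper52.Wqo.PP

set_option autoImplicit false

open Pointwise

namespace Pool.Agent.Helper52.Wqo

variable {Γ : Type*} [Group Γ]

theorem ne_mono {S F F' : Set Γ} (hS : Gen S) (h : F ⊆ F') {x y : Γ} (hx : x ∉ F)
    (hne : cmp S F x ≠ cmp S F y) : cmp S F' x ≠ cmp S F' y := by
  intro heq
  have h1 : y ∈ cmp S F' x := by rw [heq]; exact self_mem _ _ _
  exact hne (cmp_eq hS hx (cmp_mono h x h1)).symm

theorem refine_pt {S F F' : Set Γ} (hS : Gen S) (hinf : S.Infinite) (h : F ⊆ F')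
    (hF' : F'.Finite) {x : Γ} (hx : x ∉ F) :
    ∃ x', x' ∉ F' ∧ cmp S F x' = cmp S F x := by
  have h1 := cmp_infinite hinf (hF'.subset h) x
  obtain ⟨x', hx', hx''⟩ := (h1.sdiff hF').nonempty
  exact ⟨x', hx'', cmp_eq hS hx hx'⟩

theorem far_in {S F : Set Γ} (hS : Gen S) (hinf : S.Infinite) (hF : F.Finite) {x : Γ}
    (hx : x ∉ F) : ∃ g, Far F g ∧ cmp S F g = cmp S F x := by
  have h1 := cmp_infinite hinf hF x
  obtain ⟨g, hg, hg'⟩ := (h1.sdiff (not_far_finite hF)).nonempty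
  exact ⟨g, not_not.1 hg', cmp_eq hS hx hg⟩

theorem smul_not_mem {F : Set Γ} {g x : Γ} (hx : x ∉ F) : g * x ∉ g • F := by
  rw [Set.mem_smul_set]
  rintro ⟨y, hy, hxy⟩
  have : y = x := by simpa using hxy
  exact hx (this ▸ hy)

theorem smul_ne {S F : Set Γ} (hS : Gen S) {g x y : Γ} (hx : x ∉ F)
    (hne : cmp S F x ≠ cmp S F y) : cmp S (g • F) (g * x) ≠ cmp S (g • F) (g * y) := by
  intro heq
  have h1 : g * y ∈ cmp S (g • F) (g * x) := by rw [heq]; exact self_mem _ _ _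
  rw [cmp_smul_iff, inv_mul_cancel_left] at h1
  exact hne (cmp_eq hS hx h1).symm

theorem one_not_smul {S F : Set Γ} (hT : Tied S F) {g : Γ} (hg : Far F g) : (1 : Γ) ∉ g • F := by
  rw [Set.mem_smul_set]
  rintro ⟨y, hy, hxy⟩
  exact hg y hy (by rw [show g * y = 1 from hxy]; exact hT.1)

/-- An infinite Cayley graph with an infinite generating set and a finite separating set has a
finite set whose deletion leaves at least three components. -/
theorem three_comps {S F : Set Γ} (hS : Gen S) (hinf : S.Infinite) (hF : F.Finite)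
    (hT : Tied S F) {a b : Γ} (ha : a ∉ F) (hb : b ∉ F) (hab : cmp S F a ≠ cmp S F b) :
    ∃ F' : Set Γ, F'.Finite ∧ ∃ x y z, x ∉ F' ∧ y ∉ F' ∧ z ∉ F' ∧ cmp S F' x ≠ cmp S F' y ∧
      cmp S F' x ≠ cmp S F' z ∧ cmp S F' y ≠ cmp S F' z := by
  by_contra hcon
  have H2 : ∀ F' : Set Γ, F'.Finite → ∀ x y z, x ∉ F' → y ∉ F' → z ∉ F' →
      cmp S F' x ≠ cmp S F' y → cmp S F' x ≠ cmp S F' z → cmp S F' y ≠ cmp S F' z → False := by
    intro F' hF' x y z hx hy hz h1 h2 h3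
    exact hcon ⟨F', hF', x, y, z, hx, hy, hz, h1, h2, h3⟩
  -- the main claim
  have claim : ∀ g, Far F g → g ∈ cmp S F a → ∃ c, (c = a ∨ c = b) ∧
      ∀ x, x ∉ cmp S F a ↔ g⁻¹ * x ∈ cmp S F c := by
    intro g hg hga
    have hcg : cmp S F g = cmp S F a := cmp_eq hS ha hga
    have hsub : ∀ x, x ∉ cmp S F a → x ∈ cmp S (g • F) 1 := by
      intro x hx
      exact compl_subset hS hT hg x (by rwa [hcg])
    have hFin : ∀ x ∈ F, x ∈ cmp S (g • F) 1 :=
      fun x hx => hsub x (fun h => cmp_not_mem ha h hx)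
    have h1 : (1 : Γ) ∉ g • F := one_not_smul hT hg
    have hgF : ∀ x ∈ g • F, x ∈ cmp S F a := by
      intro x hx
      rw [Set.mem_smul_set] at hx
      obtain ⟨y, hy, rfl⟩ := hx
      rw [← hcg]
      exact tied_mem hT hg y hy
    have hba : b ∉ cmp S F a := fun h => hab (cmp_eq hS ha h).symm
    have hbgF : b ∉ g • F := fun h => hba (hgF b h)
    have hcb : cmp S (g • F) b = cmp S (g • F) 1 := cmp_eq hS h1 (hsub b hba)
    -- a point `l` in another component off `g F`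
    obtain ⟨l, hlgF, hl⟩ : ∃ l, l ∉ g • F ∧ l ∉ cmp S (g • F) 1 := by
      by_contra hno
      push Not at hno
      have e1 := hno (g * a) (smul_not_mem ha)
      have e2 := hno (g * b) (smul_not_mem hb)
      apply smul_ne hS (g := g) ha hab
      rw [cmp_eq hS h1 e1, cmp_eq hS h1 e2]
    have hlF : l ∉ F := fun h => hl (hFin l h)
    have hl1 : cmp S (g • F) 1 ≠ cmp S (g • F) l := by
      intro h
      apply hl
      rw [h]
      exact self_mem _ _ _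
    have hle : ∀ x, x ∈ cmp S (g • F) 1 → x ∉ cmp S F a := by
      intro z hz hza
      have hzF : z ∉ F := cmp_not_mem ha hza
      have hzgF : z ∉ g • F := cmp_not_mem h1 hz
      have hcz : cmp S (g • F) z = cmp S (g • F) 1 := cmp_eq hS h1 hz
      refine H2 (F ∪ g • F) (hF.union hF.smul_set) b z l ?_ ?_ ?_ ?_ ?_ ?_
      · rintro (h | h)
        · exact hb h
        · exact hbgF h
      · rintro (h | h)
        · exact hzF h
        · exact hzgF h
      · rintro (h | h)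
        · exact hlF h
        · exact hlgF h
      · refine ne_mono hS Set.subset_union_left hb ?_
        rw [cmp_eq hS ha hza]
        exact Ne.symm hab
      · refine ne_mono hS Set.subset_union_right hbgF ?_
        rw [hcb]
        exact hl1
      · refine ne_mono hS Set.subset_union_right hzgF ?_
        rw [hcz]
        exact hl1
    have hK : ∀ x, x ∉ cmp S F a ↔ x ∈ cmp S (g • F) 1 := fun x => ⟨hsub x, hle x⟩
    have hor : cmp S (g • F) 1 = cmp S (g • F) (g * a) ∨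
        cmp S (g • F) 1 = cmp S (g • F) (g * b) := by
      by_contra hno
      push Not at hno
      exact H2 (g • F) hF.smul_set 1 (g * a) (g * b) h1 (smul_not_mem ha) (smul_not_mem hb)
        hno.1 hno.2 (smul_ne hS ha hab)
    rcases hor with h | h
    · refine ⟨a, Or.inl rfl, fun x => ?_⟩
      rw [hK x, h, cmp_smul_iff]
    · refine ⟨b, Or.inr rfl, fun x => ?_⟩
      rw [hK x, h, cmp_smul_iff]
  -- each choice of `c` is possible only finitely often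
  have fin : ∀ c, c ∉ F → {g : Γ | ∀ x, x ∉ cmp S F a ↔ g⁻¹ * x ∈ cmp S F c}.Finite := by
    intro c hc
    obtain ⟨x₀, hx₀, y₀, hy₀, hadj⟩ : ∃ x₀ ∈ cmp S F c, ∃ y₀, y₀ ∉ cmp S F c ∧ x₀⁻¹ * y₀ ∈ S := by
      by_contra hno
      push Not at hno
      have hall := gen_induct hS (fun y => y ∉ cmp S F c)
        (fun h => cmp_not_mem hc h hT.1) (by
          intro u v hu huv hv
          exact hno v hv u hu (adj_symm hS huv))
      exact hall c (self_mem _ _ _)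
    refine (hF.mul (Set.finite_singleton x₀⁻¹)).subset ?_
    intro g hg
    have e1 : g * x₀ ∉ cmp S F a := (hg _).2 (by rwa [inv_mul_cancel_left])
    have e2 : g * y₀ ∈ cmp S F a := by
      by_contra h
      have := (hg _).1 h
      rw [inv_mul_cancel_left] at this
      exact hy₀ this
    have e3 : g * x₀ ∈ F := by
      by_contra h
      refine e1 (cmp_adj e2 ?_ h)
      have := adj_symm hS hadj
      simpa [mul_assoc] using this
    exact Set.mem_mul.2 ⟨g * x₀, e3, x₀⁻¹, rfl, by simp⟩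
  have hinf1 : ((cmp S F a) \ {g : Γ | ¬ Far F g}).Infinite :=
    (cmp_infinite hinf hF a).sdiff (not_far_finite hF)
  refine hinf1 (((fin a ha).union (fin b hb)).subset ?_)
  rintro g ⟨hg, hg'⟩
  obtain ⟨c, hc, hx⟩ := claim g (not_not.1 hg') hg
  rcases hc with rfl | rfl
  · exact Or.inl hx
  · exact Or.inr hx

theorem four_comps {S F : Set Γ} (hS : Gen S) (hinf : S.Infinite) (hF : F.Finite)
    (hT : Tied S F) {a b c : Γ} (ha : a ∉ F) (hb : b ∉ F) (hc : c ∉ F)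
    (hab : cmp S F a ≠ cmp S F b) (hac : cmp S F a ≠ cmp S F c) (hbc : cmp S F b ≠ cmp S F c) :
    ∃ F' : Set Γ, F'.Finite ∧ ∃ x y z w, x ∉ F' ∧ y ∉ F' ∧ z ∉ F' ∧ w ∉ F' ∧
      cmp S F' x ≠ cmp S F' y ∧ cmp S F' x ≠ cmp S F' z ∧ cmp S F' x ≠ cmp S F' w ∧
      cmp S F' y ≠ cmp S F' z ∧ cmp S F' y ≠ cmp S F' w ∧ cmp S F' z ≠ cmp S F' w := by
  obtain ⟨g, hg, hcg⟩ := far_in hS hinf hF ha
  have hsub : ∀ x, x ∉ cmp S F a → x ∈ cmp S (g • F) 1 := by
    intro x hx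
    exact compl_subset hS hT hg x (by rwa [hcg])
  have hFin : ∀ x ∈ F, x ∈ cmp S (g • F) 1 :=
    fun x hx => hsub x (fun h => cmp_not_mem ha h hx)
  have h1 : (1 : Γ) ∉ g • F := one_not_smul hT hg
  have hgF : ∀ x ∈ g • F, x ∈ cmp S F a := by
    intro x hx
    rw [Set.mem_smul_set] at hx
    obtain ⟨y, hy, rfl⟩ := hx
    rw [← hcg]
    exact tied_mem hT hg y hy
  have hba : b ∉ cmp S F a := fun h => hab (cmp_eq hS ha h).symm
  have hca : c ∉ cmp S F a := fun h => hac (cmp_eq hS ha h).symm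
  have hbgF : b ∉ g • F := fun h => hba (hgF b h)
  have hcgF : c ∉ g • F := fun h => hca (hgF c h)
  have hcb : cmp S (g • F) b = cmp S (g • F) 1 := cmp_eq hS h1 (hsub b hba)
  have hcc : cmp S (g • F) c = cmp S (g • F) 1 := cmp_eq hS h1 (hsub c hca)
  -- two further components off `g F`
  obtain ⟨l, l', hl, hl', hln, hln', hll⟩ : ∃ l l', l ∉ g • F ∧ l' ∉ g • F ∧
      cmp S (g • F) 1 ≠ cmp S (g • F) l ∧ cmp S (g • F) 1 ≠ cmp S (g • F) l' ∧
      cmp S (g • F) l ≠ cmp S (g • F) l' := by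
    by_cases e1 : cmp S (g • F) 1 = cmp S (g • F) (g * a)
    · refine ⟨g * b, g * c, smul_not_mem hb, smul_not_mem hc, ?_, ?_, smul_ne hS hb hbc⟩
      · rw [e1]; exact smul_ne hS ha hab
      · rw [e1]; exact smul_ne hS ha hac
    · by_cases e2 : cmp S (g • F) 1 = cmp S (g • F) (g * b)
      · refine ⟨g * a, g * c, smul_not_mem ha, smul_not_mem hc, e1, ?_, smul_ne hS ha hac⟩
        rw [e2]; exact smul_ne hS hb hbc
      · exact ⟨g * a, g * b, smul_not_mem ha, smul_not_mem hb, e1, e2, smul_ne hS ha hab⟩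
  have hlF : ∀ l, cmp S (g • F) 1 ≠ cmp S (g • F) l → l ∉ F := by
    intro l hl h
    exact hl (cmp_eq hS h1 (hFin l h)).symm
  have hbn : b ∉ F ∪ g • F := by
    rintro (h | h)
    · exact hb h
    · exact hbgF h
  have hcn : c ∉ F ∪ g • F := by
    rintro (h | h)
    · exact hc h
    · exact hcgF h
  have hlu : l ∉ F ∪ g • F := by
    rintro (h | h)
    · exact hlF l hln h
    · exact hl h
  have hlu' : l' ∉ F ∪ g • F := by
    rintro (h | h)
    · exact hlF l' hln' h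
    · exact hl' h
  refine ⟨F ∪ g • F, hF.union hF.smul_set, b, c, l, l', hbn, hcn, hlu, hlu', ?_, ?_, ?_, ?_, ?_, ?_⟩
  · exact ne_mono hS Set.subset_union_left hb hbc
  · exact ne_mono hS Set.subset_union_right hbgF (by rwa [hcb])
  · exact ne_mono hS Set.subset_union_right hbgF (by rwa [hcb])
  · exact ne_mono hS Set.subset_union_right hcgF (by rwa [hcc])
  · exact ne_mono hS Set.subset_union_right hcgF (by rwa [hcc])
  · exact ne_mono hS Set.subset_union_right hl hll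

/-- From a finite separating set to a tied finite set with four components. -/
theorem four_tied {S F : Set Γ} (hS : Gen S) (hinf : S.Infinite) (hF : F.Finite)
    {a b : Γ} (ha : a ∉ F) (hb : b ∉ F) (hab : cmp S F a ≠ cmp S F b) :
    ∃ F' : Set Γ, F'.Finite ∧ Tied S F' ∧ ∃ x y z w, x ∉ F' ∧ y ∉ F' ∧ z ∉ F' ∧ w ∉ F' ∧
      cmp S F' x ≠ cmp S F' y ∧ cmp S F' x ≠ cmp S F' z ∧ cmp S F' x ≠ cmp S F' w ∧
      cmp S F' y ≠ cmp S F' z ∧ cmp S F' y ≠ cmp S F' w ∧ cmp S F' z ≠ cmp S F' w := by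
  -- tied enlargement
  obtain ⟨F₁, hF₁, hT₁, hsub₁⟩ := exists_tied_superset hS hF
  obtain ⟨a₁, ha₁, ea₁⟩ := refine_pt hS hinf hsub₁ hF₁ ha
  obtain ⟨b₁, hb₁, eb₁⟩ := refine_pt hS hinf hsub₁ hF₁ hb
  have hne₁ : cmp S F₁ a₁ ≠ cmp S F₁ b₁ :=
    ne_mono hS hsub₁ (fun h => ha₁ (hsub₁ h)) (by rwa [ea₁, eb₁])
  obtain ⟨F₂, hF₂, x, y, z, hx, hy, hz, hxy, hxz, hyz⟩ :=
    three_comps hS hinf hF₁ hT₁ ha₁ hb₁ hne₁
  obtain ⟨F₃, hF₃, hT₃, hsub₃⟩ := exists_tied_superset hS hF₂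
  obtain ⟨x₁, hx₁, ex₁⟩ := refine_pt hS hinf hsub₃ hF₃ hx
  obtain ⟨y₁, hy₁, ey₁⟩ := refine_pt hS hinf hsub₃ hF₃ hy
  obtain ⟨z₁, hz₁, ez₁⟩ := refine_pt hS hinf hsub₃ hF₃ hz
  obtain ⟨F₄, hF₄, p, q, r, s, hp, hq, hr, hs, h1, h2, h3, h4, h5, h6⟩ :=
    four_comps hS hinf hF₃ hT₃ hx₁ hy₁ hz₁
      (ne_mono hS hsub₃ (fun h => hx₁ (hsub₃ h)) (by rwa [ex₁, ey₁]))
      (ne_mono hS hsub₃ (fun h => hx₁ (hsub₃ h)) (by rwa [ex₁, ez₁]))
      (ne_mono hS hsub₃ (fun h => hy₁ (hsub₃ h)) (by rwa [ey₁, ez₁]))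
  obtain ⟨F₅, hF₅, hT₅, hsub₅⟩ := exists_tied_superset hS hF₄
  obtain ⟨p₁, hp₁, ep⟩ := refine_pt hS hinf hsub₅ hF₅ hp
  obtain ⟨q₁, hq₁, eq⟩ := refine_pt hS hinf hsub₅ hF₅ hq
  obtain ⟨r₁, hr₁, er⟩ := refine_pt hS hinf hsub₅ hF₅ hr
  obtain ⟨s₁, hs₁, es⟩ := refine_pt hS hinf hsub₅ hF₅ hs
  refine ⟨F₅, hF₅, hT₅, p₁, q₁, r₁, s₁, hp₁, hq₁, hr₁, hs₁, ?_, ?_, ?_, ?_, ?_, ?_⟩
  · exact ne_mono hS hsub₅ (fun h => hp₁ (hsub₅ h)) (by rwa [ep, eq])
  · exact ne_mono hS hsub₅ (fun h => hp₁ (hsub₅ h)) (by rwa [ep, er])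
  · exact ne_mono hS hsub₅ (fun h => hp₁ (hsub₅ h)) (by rwa [ep, es])
  · exact ne_mono hS hsub₅ (fun h => hq₁ (hsub₅ h)) (by rwa [eq, er])
  · exact ne_mono hS hsub₅ (fun h => hq₁ (hsub₅ h)) (by rwa [eq, es])
  · exact ne_mono hS hsub₅ (fun h => hr₁ (hsub₅ h)) (by rwa [er, es])

end Pool.Agent.Helper52.Wqo
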