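import Mathlib

set_option autoImplicit false

namespace Pool.Agent.Helper52.Wqo

/-- The combinatorial core: a symmetric relation closed under the product rule, without two
disjoint pairs, is a star. -/
theorem star {ι : Type*} (T : ι → ι → Prop) (V : Set ι)
    (symm : ∀ a b, T a b → T b a)
    (prod : ∀ a b c d, T a b → T c d → b ≠ c → T a d)
    (dom : ∀ a ∈ V, ∃ b, T a b)
    (no4 : ∀ a b c d, T a b → T c d → a ≠ b → c ≠ d → a ≠ c → a ≠ d → b ≠ c → b ≠ d → False)
    (v1 v2 v3 v4 : ι) (h1 : v1 ∈ V) (h2 : v2 ∈ V) (h3 : v3 ∈ V) (h4 : v4 ∈ V)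
    (h12 : v1 ≠ v2) (h13 : v1 ≠ v3) (h14 : v1 ≠ v4) (h23 : v2 ≠ v3) (h24 : v2 ≠ v4)
    (h34 : v3 ≠ v4) :
    ∃ l p q, T p l ∧ T q l ∧ p ≠ q ∧ p ≠ l ∧ q ≠ l ∧ ∀ a b, T a b → a = l ∨ b = l := by
  classical
  -- every vertex has a proper neighbour
  have nb : ∀ a ∈ V, ∃ b, b ≠ a ∧ T a b := by
    intro a ha
    by_contra hcon
    push Not at hcon
    have haa : T a a := by
      obtain ⟨b, hb⟩ := dom a ha
      by_cases hba : b = a
      · rwa [hba] at hb
      · exact absurd hb (hcon b hba)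
    obtain ⟨c, hcV, hca⟩ : ∃ c ∈ V, c ≠ a := by
      by_cases h : v1 = a
      · exact ⟨v2, h2, fun h' => h12 (h.trans h'.symm)⟩
      · exact ⟨v1, h1, h⟩
    obtain ⟨d, hd⟩ := dom c hcV
    by_cases hda : d = a
    · rw [hda] at hd
      exact hcon c hca (symm _ _ hd)
    · exact hcon d hda (prod a a c d haa hd (Ne.symm hca))
  -- pick a vertex outside a given pair / triple
  have pick3 : ∀ x y z : ι, ∃ w ∈ V, w ≠ x ∧ w ≠ y ∧ w ≠ z := by
    intro x y z
    have hc4 : ({v1, v2, v3, v4} : Finset ι).card = 4 := by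
      rw [Finset.card_eq_succ]
      refine ⟨v1, {v2, v3, v4}, ?_, rfl, Finset.card_eq_three.2 ⟨v2, v3, v4, h23, h24, h34, rfl⟩⟩
      simp only [Finset.mem_insert, Finset.mem_singleton, not_or]
      exact ⟨h12, h13, h14⟩
    have hc3 : ({x, y, z} : Finset ι).card ≤ 3 := Finset.card_le_three
    obtain ⟨w, hw, hw'⟩ := Finset.exists_mem_notMem_of_card_lt_card
      (s := ({x, y, z} : Finset ι)) (t := ({v1, v2, v3, v4} : Finset ι)) (by omega)
    simp only [Finset.mem_insert, Finset.mem_singleton, not_or] at hw hw'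
    refine ⟨w, ?_, hw'.1, hw'.2.1, hw'.2.2⟩
    rcases hw with rfl | rfl | rfl | rfl <;> assumption
  obtain ⟨a, hane, ha⟩ := nb v1 h1
  obtain ⟨w, hwV, hw1, hwa, _⟩ := pick3 v1 a a
  obtain ⟨b, hbne, hb⟩ := nb w hwV
  have hbin : b = v1 ∨ b = a := by
    by_contra hcon
    push Not at hcon
    exact no4 v1 a w b ha hb (Ne.symm hane) (Ne.symm hbne) (Ne.symm hw1) (Ne.symm hcon.1)
      (Ne.symm hwa) (Ne.symm hcon.2)
  -- common centre `b`, other end `u`
  obtain ⟨u, hub, hu, huw⟩ : ∃ u, u ≠ b ∧ T u b ∧ u ≠ w := by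
    rcases hbin with h | h
    · exact ⟨a, by rw [h]; exact hane, by rw [h]; exact symm _ _ ha, Ne.symm hwa⟩
    · exact ⟨v1, by rw [h]; exact Ne.symm hane, by rw [h]; exact ha, Ne.symm hw1⟩
  have hwb : w ≠ b := Ne.symm hbne
  obtain ⟨z, hzV, hzu, hzw, hzb⟩ := pick3 u w b
  obtain ⟨c, hcne, hc⟩ := nb z hzV
  have hcb : c = b := by
    by_contra hcb
    have e1 : c = u := by
      by_contra hcu
      exact no4 u b z c hu hc hub (Ne.symm hcne) (Ne.symm hzu) (Ne.symm hcu) (Ne.symm hzb)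
        (Ne.symm hcb)
    have e2 : c = w := by
      by_contra hcw
      exact no4 w b z c hb hc hwb (Ne.symm hcne) (Ne.symm hzw) (Ne.symm hcw) (Ne.symm hzb)
        (Ne.symm hcb)
    exact huw (e1.symm.trans e2)
  rw [hcb] at hc
  have edge : ∀ x y, T x y → x ≠ y → x = b ∨ y = b := by
    intro x y hxy hne
    by_contra hcon
    push Not at hcon
    obtain ⟨hxb, hyb⟩ := hcon
    have f : ∀ t, T t b → t ≠ b → t = x ∨ t = y := by
      intro t ht htb
      by_contra hcon
      push Not at hcon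
      exact no4 x y t b hxy ht hne htb (Ne.symm hcon.1) hxb (Ne.symm hcon.2) hyb
    rcases f u hu hub with r1 | r1 <;> rcases f w hb hwb with r2 | r2 <;>
      rcases f z hc hzb with r3 | r3
    · exact huw (r1.trans r2.symm)
    · exact huw (r1.trans r2.symm)
    · exact hzu (r3.trans r1.symm)
    · exact hzw (r3.trans r2.symm)
    · exact hzw (r3.trans r2.symm)
    · exact hzu (r3.trans r1.symm)
    · exact huw (r1.trans r2.symm)
    · exact huw (r1.trans r2.symm)
  refine ⟨b, u, w, hu, hb, huw, hub, hwb, ?_⟩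
  intro x y hxy
  by_cases hne : x = y
  · subst hne
    by_contra hcon
    have hxb : x ≠ b := fun h => hcon (Or.inl h)
    obtain ⟨t, ht, htb, htx⟩ : ∃ t, T t b ∧ t ≠ b ∧ t ≠ x := by
      by_cases h : u = x
      · exact ⟨w, hb, hwb, fun h' => huw (h.trans h'.symm)⟩
      · exact ⟨u, hu, hub, h⟩
    have hxt : T x t := prod x x b t hxy (symm _ _ ht) hxb
    rcases edge x t hxt (Ne.symm htx) with h | h
    · exact hxb h
    · exact htb h
  · exact edge x y hxy hne

end Pool.Agent.Helper52.Wqo
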