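import Pool.Agent.Helper52.Wqo.Cmp
import Pool.Agent.Helper52.Wqo.Star

set_option autoImplicit false

open Pointwise

namespace Pool.Agent.Helper52.Wqo

variable {Γ : Type*} [Group Γ]

theorem far_mul {S F : Set Γ} (hS : Gen S) (hT : Tied S F) {g h : Γ} (hg : Far F g)
    (hh : Far F h) (hne : cmp S F g⁻¹ ≠ cmp S F h) :
    Far F (g * h) ∧ cmp S F (g * h) = cmp S F g := by
  have hgi : g⁻¹ ∉ F := far_not_mem hT (far_inv hg)
  have hhn : h ∉ F := far_not_mem hT hh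
  have hgn : g ∉ F := far_not_mem hT hg
  have hdis := cmp_disj hS hgi hhn hne
  have key : ∀ x ∈ F, g * (h * x) ∈ cmp S F g := by
    intro x hx
    refine rule hS hT hg _ ?_
    intro h1
    exact Set.disjoint_left.1 hdis h1 (tied_mem hT hh x hx)
  refine ⟨?_, ?_⟩
  · intro x hx
    rw [mul_assoc]
    exact cmp_not_mem hgn (key x hx)
  · have := key 1 hT.1
    rw [mul_one] at this
    exact cmp_eq hS hgn this

/-- The set of pairs (component of `g`, component of `g⁻¹`), for `g` in a subgroup `N`. -/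
def Ty (S F : Set Γ) (N : Subgroup Γ) (A B : Set Γ) : Prop :=
  ∃ g ∈ N, Far F g ∧ cmp S F g = A ∧ cmp S F g⁻¹ = B

theorem ty_symm {S F : Set Γ} {N : Subgroup Γ} {A B : Set Γ} (h : Ty S F N A B) :
    Ty S F N B A := by
  obtain ⟨g, hN, h1, h2, h3⟩ := h
  exact ⟨g⁻¹, N.inv_mem hN, far_inv h1, h3, by rw [inv_inv]; exact h2⟩

theorem ty_prod {S F : Set Γ} (hS : Gen S) (hT : Tied S F) {N : Subgroup Γ} {A B C D : Set Γ}
    (h : Ty S F N A B) (h' : Ty S F N C D) (hne : B ≠ C) : Ty S F N A D := by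
  obtain ⟨g, hN, h1, rfl, rfl⟩ := h
  obtain ⟨k, kN, k1, rfl, rfl⟩ := h'
  obtain ⟨e1, e2⟩ := far_mul hS hT h1 k1 hne
  refine ⟨g * k, N.mul_mem hN kN, e1, e2, ?_⟩
  obtain ⟨_, e3⟩ := far_mul hS hT (far_inv k1) (far_inv h1) (by rw [inv_inv]; exact Ne.symm hne)
  rw [mul_inv_rev]
  exact e3

/-- Ping-pong. -/
theorem pingpong {S F : Set Γ} (hS : Gen S) (hT : Tied S F) {g h : Γ} (hg : Far F g)
    (hh : Far F h) (h1 : cmp S F g ≠ cmp S F g⁻¹) (h2 : cmp S F h ≠ cmp S F h⁻¹)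
    (h3 : cmp S F g ≠ cmp S F h) (h4 : cmp S F g ≠ cmp S F h⁻¹)
    (h5 : cmp S F g⁻¹ ≠ cmp S F h) (h6 : cmp S F g⁻¹ ≠ cmp S F h⁻¹) :
    Function.Injective (FreeGroup.lift (![g, h] : Fin 2 → Γ)) := by
  have n1 : g ∉ F := far_not_mem hT hg
  have n2 : g⁻¹ ∉ F := far_not_mem hT (far_inv hg)
  have n3 : h ∉ F := far_not_mem hT hh
  have n4 : h⁻¹ ∉ F := far_not_mem hT (far_inv hh)
  have rg := rule hS hT hg
  have rg' := rule hS hT (far_inv hg)
  have rh := rule hS hT hh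
  have rh' := rule hS hT (far_inv hh)
  rw [inv_inv] at rg' rh'
  have hinj : Function.Injective (FreeGroup.lift
      (fun i : ULift (Fin 2) => (![g, h] : Fin 2 → Γ) i.down)) := by
    refine FreeGroup.injective_lift_of_ping_pong
      (fun i : ULift (Fin 2) => (![g, h] : Fin 2 → Γ) i.down)
      (fun i : ULift (Fin 2) => (![cmp S F g, cmp S F h] : Fin 2 → Set Γ) i.down)
      (fun i : ULift (Fin 2) => (![cmp S F g⁻¹, cmp S F h⁻¹] : Fin 2 → Set Γ) i.down)
      ?_ ?_ ?_ ?_ ?_ ?_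
    · rintro ⟨i⟩
      fin_cases i
      · exact ⟨g, self_mem _ _ _⟩
      · exact ⟨h, self_mem _ _ _⟩
    · rintro ⟨i⟩ ⟨j⟩ hij
      fin_cases i <;> fin_cases j
      · exact absurd rfl hij
      · exact cmp_disj hS n1 n3 h3
      · exact (cmp_disj hS n1 n3 h3).symm
      · exact absurd rfl hij
    · rintro ⟨i⟩ ⟨j⟩ hij
      fin_cases i <;> fin_cases j
      · exact absurd rfl hij
      · exact cmp_disj hS n2 n4 h6
      · exact (cmp_disj hS n2 n4 h6).symm
      · exact absurd rfl hij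
    · rintro ⟨i⟩ ⟨j⟩
      fin_cases i <;> fin_cases j
      · exact cmp_disj hS n1 n2 h1
      · exact cmp_disj hS n1 n4 h4
      · exact (cmp_disj hS n2 n3 h5).symm
      · exact cmp_disj hS n3 n4 h2
    · rintro ⟨i⟩
      fin_cases i
      · rintro _ ⟨x, hx, rfl⟩
        exact rg x hx
      · rintro _ ⟨x, hx, rfl⟩
        exact rh x hx
    · rintro ⟨i⟩
      fin_cases i
      · rintro _ ⟨x, hx, rfl⟩
        exact rg' x hx
      · rintro _ ⟨x, hx, rfl⟩
        exact rh' x hx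
  have hcomp : (FreeGroup.lift (![g, h] : Fin 2 → Γ)) =
      (FreeGroup.lift (fun i : ULift (Fin 2) => (![g, h] : Fin 2 → Γ) i.down)).comp
        (FreeGroup.freeGroupCongr (Equiv.ulift.symm : Fin 2 ≃ ULift (Fin 2))).toMonoidHom := by
    ext i
    simp
  rw [hcomp, MonoidHom.coe_comp]
  exact hinj.comp (MulEquiv.injective _)

/-- The star situation is impossible. -/
theorem no_star {S F : Set Γ} (hS : Gen S) (hF : F.Finite) (hT : Tied S F) {g h : Γ}
    (hg : Far F g) (hh : Far F h) {L : Set Γ} (hgL : cmp S F g⁻¹ = L) (hhL : cmp S F h⁻¹ = L)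
    (hPL : cmp S F g ≠ L) (hQL : cmp S F h ≠ L) (hPQ : cmp S F g ≠ cmp S F h)
    (hst : ∀ u, Far F u → cmp S F u = L ∨ cmp S F u⁻¹ = L) : False := by
  have n1 : g ∉ F := far_not_mem hT hg
  have n2 : g⁻¹ ∉ F := far_not_mem hT (far_inv hg)
  have n3 : h ∉ F := far_not_mem hT hh
  have n4 : h⁻¹ ∉ F := far_not_mem hT (far_inv hh)
  have rg := rule hS hT hg
  have rg' := rule hS hT (far_inv hg)
  have rh := rule hS hT hh
  have rh' := rule hS hT (far_inv hh)
  rw [inv_inv] at rg' rh'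
  rw [hgL] at rg rg'
  rw [hhL] at rh rh'
  have dPL : Disjoint (cmp S F g) L := by rw [← hgL]; exact cmp_disj hS n1 n2 (by rwa [hgL])
  have dQL : Disjoint (cmp S F h) L := by rw [← hhL]; exact cmp_disj hS n3 n4 (by rwa [hhL])
  have dPQ : Disjoint (cmp S F g) (cmp S F h) := cmp_disj hS n1 n3 hPQ
  have LF : ∀ x ∈ L, x ∉ F := by
    intro x hx
    rw [← hgL] at hx
    exact cmp_not_mem n2 hx
  have Ladj : ∀ x ∈ L, ∀ y, x⁻¹ * y ∈ S → y ∉ F → y ∈ L := by
    intro x hx y hxy hy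
    rw [← hgL] at hx ⊢
    exact cmp_adj hx hxy hy
  have oneF : (1 : Γ) ∈ F := hT.1
  have oneL : (1 : Γ) ∉ L := fun h1 => LF 1 h1 oneF
  have oneP : (1 : Γ) ∉ cmp S F g := fun h1 => cmp_not_mem n1 h1 oneF
  have oneQ : (1 : Γ) ∉ cmp S F h := fun h1 => cmp_not_mem n3 h1 oneF
  -- powers
  have pg : ∀ n : ℕ, g ^ (n + 1) ∈ cmp S F g := by
    intro n
    induction n with
    | zero => rw [zero_add, pow_one]; exact self_mem _ _ _
    | succ n ih =>
      rw [pow_succ']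
      exact rg _ (fun h1 => Set.disjoint_left.1 dPL ih h1)
  have ph : ∀ n : ℕ, h ^ (n + 1) ∈ cmp S F h := by
    intro n
    induction n with
    | zero => rw [zero_add, pow_one]; exact self_mem _ _ _
    | succ n ih =>
      rw [pow_succ']
      exact rh _ (fun h1 => Set.disjoint_left.1 dQL ih h1)
  have phi : ∀ n : ℕ, (h⁻¹) ^ (n + 1) ∈ L := by
    intro n
    induction n with
    | zero => rw [zero_add, pow_one, ← hhL]; exact self_mem _ _ _
    | succ n ih =>
      rw [pow_succ']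
      exact rh' _ (fun h1 => Set.disjoint_left.1 dQL h1 ih)
  -- every vertex is pushed out of `L` by the powers of `h`
  have out1 : ∀ x m, h ^ m * x ∉ L → ∀ k, h ^ (m + (k + 1)) * x ∈ cmp S F h := by
    intro x m hm k
    induction k with
    | zero =>
      rw [zero_add, pow_succ', mul_assoc]
      exact rh _ hm
    | succ k ih =>
      rw [← add_assoc, pow_succ', mul_assoc]
      exact rh _ (fun h1 => Set.disjoint_left.1 dQL ih h1)
  have out2 : ∀ x, ∃ m : ℕ, h ^ m * x ∉ L := by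
    refine gen_induct hS _ ⟨0, by simpa using oneL⟩ ?_
    rintro a b ⟨m, hm⟩ hab
    by_cases hb : h ^ m * b ∈ L
    · refine ⟨m + 1, ?_⟩
      have hadj : (h ^ m * b)⁻¹ * (h ^ m * a) ∈ S := by
        have := adj_symm hS hab
        simpa [mul_assoc] using this
      have haF : h ^ m * a ∈ F := by
        by_contra hna
        exact hm (Ladj _ hb _ hadj hna)
      have h1 : h * (h ^ m * a) ∈ cmp S F h := tied_mem hT hh _ haF
      intro h2
      rw [pow_succ', mul_assoc] at h2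
      have h3 : h * (h ^ m * b) ∈ cmp S F h := by
        refine cmp_adj h1 ?_ (LF _ h2)
        have := hab
        simpa [mul_assoc] using this
      exact Set.disjoint_left.1 dQL h3 h2
    · exact ⟨m, hb⟩
  -- for every `n` some `g^n h^(-m)` lies in `L`
  have ex : ∀ n : ℕ, ∃ m : ℕ, g ^ (n + 1) * (h⁻¹) ^ m ∈ L := by
    intro n
    have hfin : ((g ^ (n + 1))⁻¹ • F).Finite := hF.smul_set
    have hb : ∃ m₀ : ℕ, ∀ x ∈ (g ^ (n + 1))⁻¹ • F, h ^ m₀ * x ∈ cmp S F h := by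
      have aux : ∀ E : Set Γ, E.Finite → ∃ m₀ : ℕ, ∀ x ∈ E, ∀ k : ℕ, h ^ (m₀ + (k + 1)) * x ∈ cmp S F h := by
        intro E hE
        induction E, hE using Set.Finite.induction_on with
        | empty => exact ⟨0, fun x hx => absurd hx (Set.notMem_empty x)⟩
        | insert _ _ ih =>
          rename_i a s _ _
          obtain ⟨m₀, hm₀⟩ := ih
          obtain ⟨m, hm⟩ := out2 a
          refine ⟨m + m₀, ?_⟩
          rintro x (rfl | hx) k
          · have := out1 x m hm (m₀ + k)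
            convert this using 3
            omega
          · have := hm₀ x hx (m + k)
            convert this using 3
            omega
      obtain ⟨m₀, hm₀⟩ := aux _ hfin
      exact ⟨m₀ + (0 + 1), fun x hx => hm₀ x hx 0⟩
    obtain ⟨m₀, hm₀⟩ := hb
    refine ⟨m₀, ?_⟩
    have hu : Far F (g ^ (n + 1) * (h⁻¹) ^ m₀)⁻¹ := by
      intro x hx
      have h1 := hm₀ ((g ^ (n + 1))⁻¹ * x) (Set.mem_smul_set.2 ⟨x, hx, rfl⟩)
      have h2 : (g ^ (n + 1) * (h⁻¹) ^ m₀)⁻¹ * x = h ^ m₀ * ((g ^ (n + 1))⁻¹ * x) := by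
        rw [mul_inv_rev, inv_pow, inv_inv, mul_assoc]
      rw [h2]
      exact cmp_not_mem n3 h1
    have hv : (g ^ (n + 1) * (h⁻¹) ^ m₀)⁻¹ ∈ cmp S F h := by
      have h1 := hm₀ ((g ^ (n + 1))⁻¹ * 1) (Set.mem_smul_set.2 ⟨1, oneF, rfl⟩)
      have h2 : (g ^ (n + 1) * (h⁻¹) ^ m₀)⁻¹ = h ^ m₀ * ((g ^ (n + 1))⁻¹ * 1) := by
        rw [mul_inv_rev, inv_pow, inv_inv, mul_one]
      rw [h2]
      exact h1
    have hu' : Far F (g ^ (n + 1) * (h⁻¹) ^ m₀) := by
      have := far_inv hu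
      rwa [inv_inv] at this
    rcases hst _ hu' with h1 | h1
    · rw [← h1]; exact self_mem _ _ _
    · exfalso
      apply hQL
      rw [← h1, cmp_eq hS n3 hv]
  -- minimal such `m`
  classical
  obtain ⟨Q, hQfin, hQT, hQh⟩ := exists_tied hS h
  have fin : (F * Q⁻¹).Finite := hF.mul hQfin.inv
  have hmem : ∀ n : ℕ, g ^ (n + 1) * (h⁻¹) ^ (Nat.find (ex n)) ∈ F * Q⁻¹ := by
    intro n
    set m := Nat.find (ex n) with hm
    have hspec : g ^ (n + 1) * (h⁻¹) ^ m ∈ L := Nat.find_spec (ex n)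
    have hpos : m ≠ 0 := by
      intro h0
      rw [h0, pow_zero, mul_one] at hspec
      exact Set.disjoint_left.1 dPL (pg n) hspec
    obtain ⟨k, hk⟩ := Nat.exists_eq_succ_of_ne_zero hpos
    have hprev : g ^ (n + 1) * (h⁻¹) ^ k ∉ L := by
      refine Nat.find_min (ex n) ?_
      rw [← hm, hk]
      exact Nat.lt_succ_self k
    have heq : g ^ (n + 1) * (h⁻¹) ^ m * h = g ^ (n + 1) * (h⁻¹) ^ k := by
      have e0 : (h⁻¹) ^ (k + 1) * h = (h⁻¹) ^ k := by
        rw [pow_succ, mul_assoc, inv_mul_cancel, mul_one]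
      rw [hk, mul_assoc]
      exact congrArg _ e0
    -- walk along `Q`
    have walk := hQT.2 h hQh
    have key : ∀ y, Relation.ReflTransGen (fun a b => a⁻¹ * b ∈ S ∧ b ∈ Q) 1 y →
        (g ^ (n + 1) * (h⁻¹) ^ m * y ∈ L) ∨
          ∃ z ∈ Q, g ^ (n + 1) * (h⁻¹) ^ m * z ∈ F := by
      intro y hy
      induction hy with
      | refl => left; rw [mul_one]; exact hspec
      | tail _ hbc ih =>
        rename_i b c _
        rcases ih with h1 | h1
        · by_cases hcF : g ^ (n + 1) * (h⁻¹) ^ m * c ∈ F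
          · exact Or.inr ⟨c, hbc.2, hcF⟩
          · left
            refine Ladj _ h1 _ ?_ hcF
            have := hbc.1
            simpa [mul_assoc] using this
        · exact Or.inr h1
    rcases key h walk with h1 | ⟨z, hz, hzF⟩
    · rw [heq] at h1
      exact absurd h1 hprev
    · refine Set.mem_mul.2 ⟨_, hzF, z⁻¹, Set.inv_mem_inv.2 hz, ?_⟩
      rw [mul_inv_cancel_right]
  -- pigeonhole
  obtain ⟨n₁, n₂, hne, heq⟩ : ∃ n₁ n₂ : ℕ, n₁ < n₂ ∧
      g ^ (n₁ + 1) * (h⁻¹) ^ (Nat.find (ex n₁)) = g ^ (n₂ + 1) * (h⁻¹) ^ (Nat.find (ex n₂)) := by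
    have : Finite (F * Q⁻¹ : Set Γ) := fin
    obtain ⟨a, b, hab, hf⟩ := Finite.exists_ne_map_eq_of_infinite
      (fun n : ℕ => (⟨_, hmem n⟩ : (F * Q⁻¹ : Set Γ)))
    have hf' := congrArg Subtype.val hf
    rcases Nat.lt_or_gt_of_ne hab with h1 | h1
    · exact ⟨a, b, h1, hf'⟩
    · exact ⟨b, a, h1, hf'.symm⟩
  obtain ⟨a, rfl⟩ := Nat.exists_eq_add_of_lt hne
  generalize Nat.find (ex n₁) = m₁ at heq
  generalize Nat.find (ex (n₁ + a + 1)) = m₂ at heq
  have hga : g ^ (a + 1) = (h⁻¹) ^ m₁ * h ^ m₂ := by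
    have e1 : g ^ (n₁ + a + 1 + 1) = g ^ (n₁ + 1) * g ^ (a + 1) := by
      rw [← pow_add]; congr 1; omega
    rw [e1, mul_assoc] at heq
    have e2 := mul_left_cancel heq
    rw [e2, mul_assoc, inv_pow, inv_mul_cancel, mul_one]
  have hP := pg a
  rw [hga] at hP
  rcases Nat.lt_trichotomy m₁ m₂ with h1 | h1 | h1
  · obtain ⟨k, rfl⟩ := Nat.exists_eq_add_of_lt h1
    have e : (h⁻¹) ^ m₁ * h ^ (m₁ + k + 1) = h ^ (k + 1) := by
      rw [add_assoc, pow_add, ← mul_assoc, inv_pow, inv_mul_cancel, one_mul]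
    rw [e] at hP
    exact Set.disjoint_left.1 dPQ hP (ph k)
  · rw [h1, inv_pow, inv_mul_cancel] at hP
    exact oneP hP
  · obtain ⟨k, rfl⟩ := Nat.exists_eq_add_of_lt h1
    have e : (h⁻¹) ^ (m₂ + k + 1) * h ^ m₂ = (h⁻¹) ^ (k + 1) := by
      have : m₂ + k + 1 = (k + 1) + m₂ := by omega
      rw [this, pow_add, mul_assoc, inv_pow h m₂, inv_mul_cancel, mul_one]
    rw [e] at hP
    exact Set.disjoint_left.1 dPL hP (phi k)

end Pool.Agent.Helper52.Wqo
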